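import Mathlib

/-!
# Sumsets in `Z_N` whose complement has no long arithmetic progression

For every large prime `N` there is `A ⊆ Z_N` with `|A| > N/4`, `|A + A| ≤ (99/100) N`, such that
the complement of `A + A` contains no arithmetic progression longer than `2 log_2 N + 2`.

Construction.  Let `N = 20 q + t` with `t < 20`, `L = 9 q`, `J = [0, L)`, so that
`J + J = [0, 2L - 2]`.  Let `W = [a, b)` be the middle window with `a = 4 q` and
`b - a = N - 2L + 1`, and let `r = 2L - 1 - a`, so that `W + r` is the complement of `J + J`.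
Let `Y ⊆ W` have no long progression and at least half of the points of `W` (union bound).
Then `A = (J \ Y) ∪ {r}` works: the complement of `A + A` is exactly `Y + r`.
-/

open scoped Pointwise

namespace Pool.Agent.Results.MP_4e2f3e_nt.SumsetComplement

/-- The set `X` contains the `k` distinct points `a, a + d, ..., a + (k - 1) d`
for some `a` and some `d ≠ 0` (`N` is prime in all uses, so `k ≤ N` makes them distinct). -/
def HasAP {N : ℕ} (X : Finset (ZMod N)) (k : ℕ) : Prop :=
  k ≤ N ∧ ∃ a d : ZMod N, d ≠ 0 ∧ ∀ i : ℕ, i < k → a + (i : ZMod N) * d ∈ X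

/-- `L(X)`: the largest length of an arithmetic progression contained in `X`. -/
noncomputable def longestAP {N : ℕ} (X : Finset (ZMod N)) : ℕ := sSup {k : ℕ | HasAP X k}

/-- Sanity check: for prime `N` the number `longestAP X` is the maximum of the lengths. -/
theorem isGreatest_longestAP {N : ℕ} [Fact N.Prime] (X : Finset (ZMod N)) :
    IsGreatest {k : ℕ | HasAP X k} (longestAP X) := by
  have hne : {k : ℕ | HasAP X k}.Nonempty :=
    ⟨0, Nat.zero_le _, 0, 1, one_ne_zero, fun i hi => absurd hi (Nat.not_lt_zero i)⟩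
  have hbdd : BddAbove {k : ℕ | HasAP X k} := ⟨N, fun k hk => hk.1⟩
  exact ⟨Nat.sSup_mem hne hbdd, fun k hk => le_csSup hbdd hk⟩

section counting

variable {N : ℕ} [hN : Fact N.Prime]

/-- the points of a progression -/
def pts (k : ℕ) (a d : ZMod N) : Finset (ZMod N) :=
  (Finset.range k).image fun i : ℕ => a + (i : ZMod N) * d

theorem card_pts {k : ℕ} (hk : k ≤ N) (a d : ZMod N) (hd : d ≠ 0) : (pts k a d).card = k := by
  unfold pts
  rw [Finset.card_image_of_injOn, Finset.card_range]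
  intro i hi j hj hij
  simp only [Finset.coe_range, Set.mem_Iio] at hi hj
  have h1 : ((i : ZMod N) - (j : ZMod N)) * d = 0 := by
    have h2 : a + (i : ZMod N) * d = a + (j : ZMod N) * d := hij
    linear_combination h2
  rcases mul_eq_zero.mp h1 with h | h
  · have h3 : ((i : ℕ) : ZMod N) = ((j : ℕ) : ZMod N) := sub_eq_zero.mp h
    rw [ZMod.natCast_eq_natCast_iff'] at h3
    rwa [Nat.mod_eq_of_lt (lt_of_lt_of_le hi hk), Nat.mod_eq_of_lt (lt_of_lt_of_le hj hk)] at h3
  · exact absurd h hd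

theorem card_up {W P : Finset (ZMod N)} (hP : P ⊆ W) :
    (W.powerset.filter fun Y => P ⊆ Y ∨ Disjoint P Y).card * 2 ^ P.card ≤ 2 * 2 ^ W.card := by
  have h1 : (W.powerset.filter fun Y => P ⊆ Y).card ≤ 2 ^ (W \ P).card := by
    rw [← Finset.card_powerset]
    apply Finset.card_le_card_of_injOn (fun Y => Y \ P)
    · intro Y hY
      simp only [Finset.coe_filter, Finset.mem_powerset, Set.mem_ofPred_eq] at hY
      simp only [Finset.coe_powerset, Set.mem_preimage, Set.mem_powerset_iff, Finset.coe_subset]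
      exact Finset.sdiff_subset_sdiff hY.1 (Finset.Subset.refl _)
    · intro Y hY Z hZ hYZ
      simp only [Finset.coe_filter, Finset.mem_powerset, Set.mem_ofPred_eq] at hY hZ
      have h3 : Y \ P ∪ P = Z \ P ∪ P := by
        have h4 : Y \ P = Z \ P := hYZ
        rw [h4]
      rwa [Finset.sdiff_union_of_subset hY.2, Finset.sdiff_union_of_subset hZ.2] at h3
  have h2 : (W.powerset.filter fun Y => Disjoint P Y).card ≤ 2 ^ (W \ P).card := by
    rw [← Finset.card_powerset]
    apply Finset.card_le_card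
    intro Y hY
    rw [Finset.mem_filter, Finset.mem_powerset] at hY
    rw [Finset.mem_powerset]
    intro y hy
    rw [Finset.mem_sdiff]
    exact ⟨hY.1 hy, fun hyP => (Finset.disjoint_left.mp hY.2) hyP hy⟩
  have h3 : (W.powerset.filter fun Y => P ⊆ Y ∨ Disjoint P Y).card ≤ 2 * 2 ^ (W \ P).card := by
    rw [Finset.filter_or]
    calc _ ≤ _ := Finset.card_union_le _ _
      _ ≤ 2 ^ (W \ P).card + 2 ^ (W \ P).card := Nat.add_le_add h1 h2
      _ = _ := by ring
  have h4 : (W \ P).card + P.card = W.card := Finset.card_sdiff_add_card_eq_card hP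
  calc _ ≤ 2 * 2 ^ (W \ P).card * 2 ^ P.card := Nat.mul_le_mul_right _ h3
    _ = 2 * 2 ^ ((W \ P).card + P.card) := by rw [pow_add]; ring
    _ = _ := by rw [h4]

/-- Every `W` has a subset with at least half of the points and without long progression. -/
theorem exists_good (W : Finset (ZMod N)) {k : ℕ} (hk : 2 * N ^ 2 < 2 ^ k) (hkN : k ≤ N) :
    ∃ Y : Finset (ZMod N), Y ⊆ W ∧ W.card ≤ 2 * Y.card ∧
      ∀ a d : ZMod N, d ≠ 0 → ¬ ∀ i : ℕ, i < k → a + (i : ZMod N) * d ∈ Y := by
  classical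
  set I : Finset (ZMod N × ZMod N) :=
    Finset.univ.filter fun p => p.2 ≠ 0 ∧ pts k p.1 p.2 ⊆ W with hI
  set B : Finset (Finset (ZMod N)) := I.biUnion fun p =>
    W.powerset.filter fun Y => pts k p.1 p.2 ⊆ Y ∨ Disjoint (pts k p.1 p.2) Y with hB
  have hIcard : I.card ≤ N ^ 2 := by
    calc I.card ≤ (Finset.univ : Finset (ZMod N × ZMod N)).card := Finset.card_filter_le _ _
      _ = N ^ 2 := by
        rw [Finset.card_univ, Fintype.card_prod, ZMod.card]; ring
  have hBcard : B.card * 2 ^ k < 2 ^ W.card * 2 ^ k := by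
    calc B.card * 2 ^ k ≤ (∑ p ∈ I, (W.powerset.filter fun Y =>
            pts k p.1 p.2 ⊆ Y ∨ Disjoint (pts k p.1 p.2) Y).card) * 2 ^ k :=
          Nat.mul_le_mul_right _ Finset.card_biUnion_le
      _ = ∑ p ∈ I, (W.powerset.filter fun Y =>
            pts k p.1 p.2 ⊆ Y ∨ Disjoint (pts k p.1 p.2) Y).card * 2 ^ k := Finset.sum_mul _ _ _
      _ ≤ ∑ p ∈ I, 2 * 2 ^ W.card := by
          apply Finset.sum_le_sum
          intro p hp
          rw [hI, Finset.mem_filter] at hp
          have h1 := card_up hp.2.2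
          rwa [card_pts hkN p.1 p.2 hp.2.1] at h1
      _ = I.card * (2 * 2 ^ W.card) := by rw [Finset.sum_const, smul_eq_mul]
      _ ≤ N ^ 2 * (2 * 2 ^ W.card) := Nat.mul_le_mul_right _ hIcard
      _ = (2 * N ^ 2) * 2 ^ W.card := by ring
      _ < 2 ^ k * 2 ^ W.card := Nat.mul_lt_mul_of_pos_right hk (by positivity)
      _ = _ := by ring
  have hlt : B.card < W.powerset.card := by
    rw [Finset.card_powerset]
    exact lt_of_mul_lt_mul_right hBcard (Nat.zero_le _)
  obtain ⟨Y, hYW, hYB⟩ := Finset.exists_mem_notMem_of_card_lt_card hlt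
  rw [Finset.mem_powerset] at hYW
  have key : ∀ a d : ZMod N, d ≠ 0 → pts k a d ⊆ W → ¬ (pts k a d ⊆ Y) ∧
      ¬ Disjoint (pts k a d) Y := by
    intro a d hd hsub
    rw [← not_or]
    intro hcon
    apply hYB
    rw [hB, Finset.mem_biUnion]
    refine ⟨(a, d), ?_, ?_⟩
    · rw [hI, Finset.mem_filter]
      exact ⟨Finset.mem_univ _, hd, hsub⟩
    · rw [Finset.mem_filter, Finset.mem_powerset]
      exact ⟨hYW, hcon⟩
  have hmem : ∀ (a d : ZMod N) (Z : Finset (ZMod N)),
      (∀ i : ℕ, i < k → a + (i : ZMod N) * d ∈ Z) → pts k a d ⊆ Z := by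
    intro a d Z h x hx
    unfold pts at hx
    rw [Finset.mem_image] at hx
    obtain ⟨i, hi, rfl⟩ := hx
    exact h i (Finset.mem_range.mp hi)
  have hsum : (W \ Y).card + Y.card = W.card := Finset.card_sdiff_add_card_eq_card hYW
  by_cases hc : W.card ≤ 2 * Y.card
  · refine ⟨Y, hYW, hc, ?_⟩
    intro a d hd h
    exact (key a d hd ((hmem a d Y h).trans hYW)).1 (hmem a d Y h)
  · refine ⟨W \ Y, Finset.sdiff_subset, by omega, ?_⟩
    intro a d hd h
    have h1 := hmem a d _ h
    refine (key a d hd (h1.trans Finset.sdiff_subset)).2 ?_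
    rw [Finset.disjoint_left]
    intro x hx hxY
    exact (Finset.mem_sdiff.mp (h1 hx)).2 hxY

end counting

/-- The main construction. -/
theorem main {N : ℕ} [hN : Fact N.Prime] (hN0 : 2000 ≤ N) {k : ℕ} (hk : 2 * N ^ 2 < 2 ^ k)
    (hkN : k ≤ N) :
    ∃ A : Finset (ZMod N), N < 4 * A.card ∧ 100 * (A + A).card ≤ 99 * N ∧
      ∀ m : ℕ, HasAP (A + A)ᶜ m → m < k := by
  classical
  obtain ⟨q, t, hq, ht⟩ : ∃ q t : ℕ, N = 20 * q + t ∧ t < 20 :=
    ⟨N / 20, N % 20, by omega, Nat.mod_lt _ (by norm_num)⟩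
  obtain ⟨L, hL⟩ : ∃ L : ℕ, L = 9 * q := ⟨_, rfl⟩
  obtain ⟨a, ha⟩ : ∃ a : ℕ, a = 4 * q := ⟨_, rfl⟩
  obtain ⟨b, hb⟩ : ∃ b : ℕ, b = 6 * q + t + 1 := ⟨_, rfl⟩
  obtain ⟨r, hr⟩ : ∃ r : ℕ, r = 14 * q - 1 := ⟨_, rfl⟩
  have hval : ∀ s : ℕ, s < N → ((s : ZMod N)).val = s := fun s hs => ZMod.val_cast_of_lt hs
  have hinj : ∀ s : ℕ, s ≤ N → Set.InjOn (fun i : ℕ => (i : ZMod N)) (Set.Iio s) := by
    intro s hs i hi j hj hij
    have h1 := congrArg ZMod.val hij
    simp only [Set.mem_Iio] at hi hj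
    simpa only [hval i (by omega), hval j (by omega)] using h1
  set W : Finset (ZMod N) := (Finset.Ico a b).image fun i : ℕ => (i : ZMod N) with hW
  have hWmem : ∀ z : ZMod N, z ∈ W → a ≤ z.val ∧ z.val < b := by
    intro z hz
    rw [hW, Finset.mem_image] at hz
    obtain ⟨i, hi, rfl⟩ := hz
    rw [Finset.mem_Ico] at hi
    rw [hval i (by omega)]
    exact hi
  have hWcard : W.card = b - a := by
    rw [hW, Finset.card_image_of_injOn, Nat.card_Ico]
    apply (hinj b (by omega)).mono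
    intro i hi
    simp only [Finset.coe_Ico, Set.mem_Ico] at hi
    exact hi.2
  obtain ⟨Y, hYW, hYcard, hYap⟩ := exists_good W hk hkN
  have hYle : Y.card ≤ W.card := Finset.card_le_card hYW
  set A : Finset (ZMod N) :=
    (((Finset.range L).image fun i : ℕ => (i : ZMod N)) \ Y) ∪ {(r : ZMod N)} with hA
  have hrA : (r : ZMod N) ∈ A := by
    rw [hA, Finset.mem_union]
    exact Or.inr (Finset.mem_singleton_self _)
  have hmemA : ∀ s : ℕ, s < L → (s : ZMod N) ∉ Y → (s : ZMod N) ∈ A := by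
    intro s hs hsY
    rw [hA, Finset.mem_union, Finset.mem_sdiff, Finset.mem_image]
    exact Or.inl ⟨⟨s, Finset.mem_range.mpr hs, rfl⟩, hsY⟩
  have hmemA' : ∀ s : ℕ, s < L → (s < a ∨ b ≤ s) → (s : ZMod N) ∈ A := by
    intro s hs hs2
    apply hmemA s hs
    intro hY
    have h1 := hWmem _ (hYW hY)
    rw [hval s (by omega)] at h1
    omega
  have hAcase : ∀ z : ZMod N, z ∈ A → (z.val < L ∧ z ∉ Y) ∨ z = (r : ZMod N) := by
    intro z hz
    rw [hA, Finset.mem_union, Finset.mem_sdiff, Finset.mem_image] at hz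
    rcases hz with ⟨⟨i, hi, rfl⟩, h⟩ | h
    · left
      rw [Finset.mem_range] at hi
      rw [hval i (by omega)]
      exact ⟨hi, h⟩
    · right
      exact Finset.mem_singleton.mp h
  -- the sumset misses `Y + r`
  have hdisj : ∀ y ∈ Y, y + (r : ZMod N) ∉ A + A := by
    intro y hy hcon
    have hyv := hWmem y (hYW hy)
    rw [Finset.mem_add] at hcon
    obtain ⟨v, hv, w, hw, hvw⟩ := hcon
    have hyr : (y + (r : ZMod N)).val = y.val + r := by
      rw [ZMod.val_add, hval r (by omega), Nat.mod_eq_of_lt (by omega)]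
    rcases hAcase v hv with ⟨hv1, hv2⟩ | hv1 <;> rcases hAcase w hw with ⟨hw1, hw2⟩ | hw1
    · have h1 : (v + w).val = v.val + w.val := by
        rw [ZMod.val_add, Nat.mod_eq_of_lt (by omega)]
      rw [hvw, hyr] at h1
      omega
    · rw [hw1] at hvw
      have h1 : v = y := add_right_cancel hvw
      exact hv2 (h1 ▸ hy)
    · rw [hv1, add_comm] at hvw
      have h1 : w = y := add_right_cancel hvw
      exact hw2 (h1 ▸ hy)
    · rw [hv1, hw1] at hvw
      have h1 : (r : ZMod N) = y := add_right_cancel hvw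
      rw [← h1, hval r (by omega)] at hyv
      omega
  -- everything else is in the sumset
  have hcompl : ∀ z : ZMod N, z ∉ A + A → ∃ y ∈ Y, z = y + (r : ZMod N) := by
    intro z hz
    have hzN : z.val < N := ZMod.val_lt z
    have hzc : ((z.val : ℕ) : ZMod N) = z := ZMod.natCast_zmod_val z
    by_cases hz1 : z.val ≤ 2 * L - 2
    · exfalso
      apply hz
      have key : ∃ s1 s2 : ℕ, s1 + s2 = z.val ∧ s1 < L ∧ s2 < L ∧ (s1 < a ∨ b ≤ s1) ∧
          (s2 < a ∨ b ≤ s2) := by
        by_cases h1 : z.val ≤ 2 * a - 2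
        · by_cases h2 : z.val < a
          · exact ⟨z.val, 0, by omega, by omega, by omega, by omega, by omega⟩
          · exact ⟨a - 1, z.val - (a - 1), by omega, by omega, by omega, by omega, by omega⟩
        · by_cases h2 : z.val ≤ L + a - 2
          · by_cases h3 : z.val ≤ b + (a - 1)
            · exact ⟨b, z.val - b, by omega, by omega, by omega, by omega, by omega⟩
            · exact ⟨z.val - (a - 1), a - 1, by omega, by omega, by omega, by omega, by omega⟩
          · by_cases h3 : z.val ≤ b + (L - 1)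
            · exact ⟨b, z.val - b, by omega, by omega, by omega, by omega, by omega⟩
            · exact ⟨z.val - (L - 1), L - 1, by omega, by omega, by omega, by omega, by omega⟩
      obtain ⟨s1, s2, h12, h1, h2, h3, h4⟩ := key
      rw [Finset.mem_add]
      refine ⟨s1, hmemA' s1 h1 h3, s2, hmemA' s2 h2 h4, ?_⟩
      rw [← Nat.cast_add, h12, hzc]
    · have hy : ((z.val - r : ℕ) : ZMod N) + (r : ZMod N) = z := by
        rw [← Nat.cast_add, Nat.sub_add_cancel (by omega), hzc]
      by_cases h1 : ((z.val - r : ℕ) : ZMod N) ∈ Y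
      · exact ⟨_, h1, hy.symm⟩
      · exfalso
        apply hz
        rw [Finset.mem_add]
        exact ⟨_, hmemA (z.val - r) (by omega) h1, _, hrA, hy⟩
  refine ⟨A, ?_, ?_, ?_⟩
  · have h1 : L - Y.card ≤ A.card := by
      calc L - Y.card = ((Finset.range L).image fun i : ℕ => (i : ZMod N)).card - Y.card := by
            rw [Finset.card_image_of_injOn, Finset.card_range]
            apply (hinj L (by omega)).mono
            intro i hi
            simpa using hi
        _ ≤ (((Finset.range L).image fun i : ℕ => (i : ZMod N)) \ Y).card :=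
            Finset.le_card_sdiff _ _
        _ ≤ A.card := Finset.card_le_card Finset.subset_union_left
    omega
  · have h1 : (A + A).card + (Y.image fun y => y + (r : ZMod N)).card ≤ N := by
      rw [← Finset.card_union_of_disjoint]
      · calc _ ≤ (Finset.univ : Finset (ZMod N)).card := Finset.card_le_univ _
          _ = N := by rw [Finset.card_univ, ZMod.card]
      · rw [Finset.disjoint_right]
        intro z hz
        rw [Finset.mem_image] at hz
        obtain ⟨y, hy, rfl⟩ := hz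
        exact hdisj y hy
    rw [Finset.card_image_of_injective _ (add_left_injective _)] at h1
    omega
  · intro m hm
    by_contra hcon
    rw [not_lt] at hcon
    obtain ⟨_, x, d, hd, hx⟩ := hm
    apply hYap (x - (r : ZMod N)) d hd
    intro i hi
    have h1 := hx i (lt_of_lt_of_le hi hcon)
    rw [Finset.mem_compl] at h1
    obtain ⟨y, hy, hxy⟩ := hcompl _ h1
    have h2 : x - (r : ZMod N) + (i : ZMod N) * d = y := by linear_combination hxy
    rw [h2]
    exact hy

theorem longestAP_le {N : ℕ} {X : Finset (ZMod N)} {k : ℕ} (h : ∀ m : ℕ, HasAP X m → m < k + 1) :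
    longestAP X ≤ k := by
  unfold longestAP
  apply csSup_le'
  intro m hm
  exact Nat.lt_succ_iff.mp (h m hm)

/-- For every large prime `N` the bound `2 log_2 N + 2` is reached. -/
theorem logBound : ∃ N₀ : ℕ, ∀ (N : ℕ) [Fact N.Prime], N₀ ≤ N →
    ∃ A : Finset (ZMod N), (N : ℝ) / 4 < A.card ∧ ((A + A).card : ℝ) ≤ 99 / 100 * N ∧
      (longestAP (A + A)ᶜ : ℝ) ≤ 2 * Real.logb 2 N + 2 := by
  refine ⟨2000, ?_⟩
  intro N hN hN0
  have hpos : N ≠ 0 := by omega
  have h1 : N < 2 ^ (Nat.log 2 N + 1) := Nat.lt_pow_succ_log_self (by norm_num) N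
  have h0 : 2 ^ Nat.log 2 N ≤ N := Nat.pow_log_le_self 2 hpos
  have hk : 2 * N ^ 2 < 2 ^ (2 * Nat.log 2 N + 3) := by
    have h2 : N ^ 2 < (2 ^ (Nat.log 2 N + 1)) ^ 2 := Nat.pow_lt_pow_left h1 (by norm_num)
    have h3 : (2 : ℕ) ^ (2 * Nat.log 2 N + 3) = 2 * (2 ^ (Nat.log 2 N + 1)) ^ 2 := by
      rw [← pow_mul, ← pow_succ']
      congr 1
      ring
    rw [h3]
    omega
  have hlog : 2 * Nat.log 2 N + 3 ≤ N := by
    have h4 : ∀ m : ℕ, 5 ≤ m → 2 * m + 3 ≤ 2 ^ m := by
      intro m hm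
      induction m, hm using Nat.le_induction with
      | base => norm_num
      | succ m hm ih => rw [pow_succ]; omega
    have h5 : 5 ≤ Nat.log 2 N := by
      apply Nat.le_log_of_pow_le (by norm_num)
      omega
    exact (h4 _ h5).trans h0
  obtain ⟨A, hA1, hA2, hA3⟩ := main hN0 hk hlog
  refine ⟨A, ?_, ?_, ?_⟩
  · have h6 : (N : ℝ) < 4 * A.card := by exact_mod_cast hA1
    linarith
  · have h7 : (100 : ℝ) * (A + A).card ≤ 99 * N := by exact_mod_cast hA2
    linarith
  · have h8 : longestAP (A + A)ᶜ ≤ 2 * Nat.log 2 N + 2 := longestAP_le hA3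
    have h9 : (Nat.log 2 N : ℝ) ≤ Real.logb 2 N := by
      have := Real.natLog_le_logb N 2
      exact_mod_cast this
    have h10 : (longestAP (A + A)ᶜ : ℝ) ≤ 2 * (Nat.log 2 N : ℝ) + 2 := by exact_mod_cast h8
    linarith

/-- The two statements: Q1 of the problem, and its quantitative form with a logarithmic bound. -/
theorem result :
    (∀ η : ℝ, 0 < η → ∃ N₀ : ℕ, ∀ (N : ℕ) [Fact N.Prime], N₀ ≤ N →
      ∃ A : Finset (ZMod N), (N : ℝ) / 4 < A.card ∧ ((A + A).card : ℝ) ≤ 99 / 100 * N ∧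
        (longestAP (A + A)ᶜ : ℝ) ≤ (N : ℝ) ^ η) ∧
    (∃ N₀ : ℕ, ∀ (N : ℕ) [Fact N.Prime], N₀ ≤ N →
      ∃ A : Finset (ZMod N), (N : ℝ) / 4 < A.card ∧ ((A + A).card : ℝ) ≤ 99 / 100 * N ∧
        (longestAP (A + A)ᶜ : ℝ) ≤ 2 * Real.logb 2 N + 2) := by
  refine ⟨?_, logBound⟩
  intro η hη
  obtain ⟨N₀, h⟩ := logBound
  have hev : ∀ᶠ N : ℕ in Filter.atTop, 2 * Real.logb 2 N + 2 ≤ (N : ℝ) ^ η := by
    have h1 : (fun x : ℝ => Real.log x) =o[Filter.atTop] fun x : ℝ => x ^ η :=
      isLittleO_log_rpow_atTop hη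
    have h2 : Filter.Tendsto (fun x : ℝ => x ^ η) Filter.atTop Filter.atTop :=
      tendsto_rpow_atTop hη
    have hc : (0 : ℝ) < Real.log 2 / 4 := by positivity
    have h3 := h1.bound hc
    have h4 := h2.eventually_ge_atTop 4
    have h5 : ∀ᶠ x : ℝ in Filter.atTop, 2 * Real.logb 2 x + 2 ≤ x ^ η := by
      filter_upwards [h3, h4, Filter.eventually_ge_atTop (1 : ℝ)] with x hx hx4 hx1
      have hlog : 0 ≤ Real.log x := Real.log_nonneg hx1
      have hpow : 0 ≤ x ^ η := Real.rpow_nonneg (by linarith) _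
      rw [Real.norm_of_nonneg hlog, Real.norm_of_nonneg hpow] at hx
      have h2pos : 0 < Real.log 2 := Real.log_pos (by norm_num)
      have h6 : Real.logb 2 x ≤ x ^ η / 4 := by
        rw [Real.logb, div_le_iff₀ h2pos]
        linarith
      linarith
    exact tendsto_natCast_atTop_atTop.eventually h5
  obtain ⟨N₁, hN₁⟩ := Filter.eventually_atTop.mp hev
  refine ⟨max N₀ N₁, ?_⟩
  intro N hN hge
  obtain ⟨A, hA1, hA2, hA3⟩ := h N ((le_max_left _ _).trans hge)
  exact ⟨A, hA1, hA2, hA3.trans (hN₁ N ((le_max_right _ _).trans hge))⟩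

end Pool.Agent.Results.MP_4e2f3e_nt.SumsetComplement
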